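import Pool.Agent.Helper932Y.Pt

set_option autoImplicit false

/-!
# MP_52e316_nt, `m = 1`, `π` trivial: the exact exponent of the largest values of `ζ(1/2 + it)` along almost every sequence

Let `a_n ≥ 1` increase to infinity with gaps at least `exp (-o(a_n))`, let `b_n > 0` with `log b_n = o(a_n)`, and put
`t_n = b_n α ^ (a_n)`, so that `log t_n` is of the order of `a_n`.

* If `0 < s < 2` and `∑ a_n^(-s²)` converges, then for almost every `α > 1`, `|ζ(1/2 + i t_n)| ≤ a_n^s` for all large `n`.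
* If `s > 0` and `∑ a_n^(-s²)` diverges, then for almost every `α > 1`, every `r` with `|r| < s`, every `ε > 0` and both
  signs there are infinitely many `n` with `a_n^(r-ε) ≤ |ζ(1/2 + i t_n)| ≤ a_n^(r+ε)` at which Hardy's function has that
  sign.

For `a_n = (n + 1)^(1/κ)`, `κ < 4`, these are about `(log T)^κ` heights up to `T`, and the largest values are
`(log T)^(√κ + o(1))`; for `t_n = α^n` they are `(log T)^(1 + o(1))`.  Unconditional.
-/

namespace Pool.Agent.Results.MP_52e316_nt.LargestValuesAlongSequences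

open Filter MeasureTheory Topology

/-- Hardy's function `Z(t)`: the product `Γ_ℝ(1/2+it) / |Γ_ℝ(1/2+it)| · ζ(1/2+it)` is real, and `Z(t)` is its real part -/
noncomputable def hardyZ (t : ℝ) : ℝ :=
  (Complex.Gammaℝ (1 / 2 + t * Complex.I) / (‖Complex.Gammaℝ (1 / 2 + t * Complex.I)‖ : ℂ) *
    riemannZeta (1 / 2 + t * Complex.I)).re

theorem result (a b : ℕ → ℝ) (ha : ∀ n, 1 ≤ a n) (hmono : StrictMono a) (hat : Tendsto a atTop atTop)
    (hgap : ∀ η : ℝ, 0 < η → ∀ᶠ n in atTop, a n + Real.exp (-(η * a n)) ≤ a (n + 1))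
    (hb : ∀ n, 0 < b n) (hba : Tendsto (fun n => Real.log (b n) / a n) atTop (𝓝 0)) (s : ℝ) (hs : 0 < s) :
    (s < 2 → (Summable fun n => a n ^ (-(s ^ 2))) →
      ∀ᵐ α : ℝ, 1 < α → ∀ᶠ n in atTop,
        ‖riemannZeta (1 / 2 + (b n * α ^ a n : ℝ) * Complex.I)‖ ≤ a n ^ s) ∧
    ((¬ Summable fun n => a n ^ (-(s ^ 2))) →
      ∀ᵐ α : ℝ, 1 < α → ∀ σ : ℝ, (σ = 1 ∨ σ = -1) → ∀ r : ℝ, |r| < s → ∀ ε : ℝ, 0 < ε →
        ∃ᶠ n in atTop,
          0 < σ * hardyZ (b n * α ^ a n) ∧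
          a n ^ (r - ε) ≤ ‖riemannZeta (1 / 2 + (b n * α ^ a n : ℝ) * Complex.I)‖ ∧
          ‖riemannZeta (1 / 2 + (b n * α ^ a n : ℝ) * Complex.I)‖ ≤ a n ^ (r + ε)) :=
  ⟨fun h2 h => Pool.Agent.Helper932Y.pt_up ha hat hb hba hs h2 h,
    fun h => Pool.Agent.Helper932Y.pt_low ha hmono hat hgap hb hba h⟩

end Pool.Agent.Results.MP_52e316_nt.LargestValuesAlongSequences
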