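import Pool.Agent.Hp428.LG.C

/-!
# The Grand Lindelöf Hypothesis for `GL(m)` and the zeros of sums of two shifts

`π` runs through the L-functions of cuspidal automorphic representations of `GL_m(𝔸_ℚ)` (`CuspidalL m`);
`C_π = N ∏ (1 + |μ_j|)` is the analytic conductor, `C_π(t) = N ∏ (1 + |i t - μ_j|)` the analytic conductor
at the height `t`, `ξ_π(s) = N^(s/2) Λ(s, π)`, and

`A_{θ,b}(s) = e^{iθ} ξ_π(s + b) + e^{-iθ} ξ_π(s - b)`

(for `θ = 0` the sum of two shifts of `ξ_π`).  Let `P` be any set of `π` (for example all of them).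

`FewZeros P θ b` says: for every `δ > 0` the number of zeros `z` of `A_{θ,b}` with `1/2 + δ ≤ Re z ≤ 1` and
`|Im z - y| ≤ 1` is `o(log C_π(y))`, uniformly in `π ∈ P` and `y`, as `C_π(y) → ∞` (the zeros are symmetric
about the critical line).

Theorem.  (1) For each `θ` with `cos θ ≠ 0` the Grand Lindelöf Hypothesis holds for `P` if and only if
`FewZeros P θ b` holds for every `b > 0`.  (2) For `0 < b < 1/2` and `θ₁ ≠ θ₂` mod `π` the bound
`L(1/2 + b + i t, π) ≪ C_π(t)^ε` (all `ε > 0`, uniform in `π ∈ P`) holds if and only if `FewZeros P θ₁ b` and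
`FewZeros P θ₂ b`.  (3) With one phase: `FewZeros P θ` for the three shifts `b₁`, `b₂`, `b₁ + b₂` gives this
bound on the line `1/2 + b₁ + b₂`.  (4) `FewZeros P θ (b/2)` and `FewZeros P θ b` (`b ≤ 1/2`) give the uniform
bound `L(1/2 + i t, π) ≪ C_π(t)^(b/2 + ε)`; this is subconvex for every `b < 1/2`.  (5) `FewZeros P θ b` holds
for all `b ≥ 1/2`.

Proof: Jensen's inequality gives few zeros from the upper bound (the function `A_{θ,b}` is dominated by its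
first term on the right); three circles after dividing by the few zeros give the upper bound for `A_{θ,b}`
from few zeros; two phases, or the three shifts identity
`2 cos θ ξ(z) = A_{θ,b₁}(z + b₁) - e^{2iθ} A_{θ,b₂}(z + 2 b₁ + b₂) + e^{2iθ} A_{θ,b₁+b₂}(z + b₁ + b₂)`
at a point to the left of the critical line, recover `ξ_π`; everything is uniform in the conductor.  Modules
`Pool.Agent.Hp428.LG`, on top of the modules `Pool.Agent.W169.HF` (uniform bounds for `ξ_π`).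
-/

set_option autoImplicit false

open Complex
open scoped ComplexConjugate

namespace Pool.Agent.Results.MP_52e316_nt.ShiftSumsGLm

/-- Analytic data of a cuspidal automorphic representation of `GL_m(𝔸_ℚ)` (not the trivial one for
`m = 1`), normalised as in the problem: conductor `N`, archimedean parameters `μ_j` with `Re μ_j ≤ 1/2` and
`∑ Im μ_j = 0` (the central character is trivial on the positive reals), Satake parameters
`|α_j(p)| ≤ √p`, root number `ε`, and the entire completed L-function `Λ` (gamma factors times Euler product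
for `Re s > 3/2`) with the functional equation, finite order in vertical strips and no zeros in
`Re s > 1` (all known: Godement-Jacquet, Jacquet-Shalika). -/
structure CuspidalL (m : ℕ) where
  /-- the conductor -/
  N : ℝ
  /-- the archimedean parameters -/
  μ : Fin m → ℂ
  /-- the Satake parameters -/
  α : Fin m → ℕ → ℂ
  /-- the root number -/
  ε : ℂ
  /-- the completed L-function -/
  Λ : ℂ → ℂ
  one_le : 1 ≤ N
  re_le : ∀ j, (μ j).re ≤ 1 / 2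
  normalised : ∑ j, (μ j).im = 0
  norm_le : ∀ j, ∀ p : ℕ, p.Prime → ‖α j p‖ ≤ Real.sqrt p
  norm_eq : ‖ε‖ = 1
  entire : Differentiable ℂ Λ
  euler : ∀ s : ℂ, 3 / 2 < s.re → Λ s = (∏ j, Gammaℝ (s - μ j)) *
    ∏' p : Nat.Primes, ∏ j, (1 - α j p * (p : ℂ) ^ (-s))⁻¹
  fe : ∀ s : ℂ, Λ s = ε * (N : ℂ) ^ (1 / 2 - s) * conj (Λ (1 - conj s))
  bdd : ∀ a b : ℝ, ∃ M, ∀ s : ℂ, a ≤ s.re → s.re ≤ b → ‖Λ s‖ ≤ Real.exp (M * (1 + |s.im|))
  ne_zero : ∀ s : ℂ, 1 < s.re → Λ s ≠ 0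

variable {m : ℕ}

/-- The L-function `L(s, π) = Λ(s, π) / ∏ Γ_ℝ(s - μ_j)`. -/
noncomputable def L (π : CuspidalL m) (s : ℂ) : ℂ := π.Λ s * ∏ j, (Gammaℝ (s - π.μ j))⁻¹

/-- The analytic conductor `C_π = N ∏ (1 + |μ_j|)`. -/
noncomputable def C (π : CuspidalL m) : ℝ := π.N * ∏ j, (1 + ‖π.μ j‖)

/-- The analytic conductor at the height `t`: `C_π(t) = N ∏ (1 + |i t - μ_j|)`. -/
noncomputable def Ct (π : CuspidalL m) (t : ℝ) : ℝ := π.N * ∏ j, (1 + ‖(t : ℂ) * I - π.μ j‖)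

/-- `ξ_π(s) = N^(s/2) Λ(s, π)`. -/
noncomputable def xi (π : CuspidalL m) (s : ℂ) : ℂ := (π.N : ℂ) ^ (s / 2) * π.Λ s

/-- The sum of two shifts `A_{θ,b}(s) = e^{iθ} ξ_π(s + b) + e^{-iθ} ξ_π(s - b)`. -/
noncomputable def A (π : CuspidalL m) (θ b : ℝ) (s : ℂ) : ℂ :=
  exp (θ * I) * xi π (s + b) + exp (-(θ * I)) * xi π (s - b)

/-- The Grand Lindelöf Hypothesis for the `π` in `P`. -/
def GLH (P : CuspidalL m → Prop) : Prop :=
  ∀ ε : ℝ, 0 < ε → ∃ B : ℝ, ∀ π : CuspidalL m, P π → ∀ t : ℝ,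
    ‖L π (1 / 2 + (t : ℂ) * I)‖ ≤ B * ((1 + |t|) * C π) ^ ε

/-- `L(1/2 + r + i t, π) ≪ C_π(t)^(a + ε)` for every `ε > 0`, uniformly in `π ∈ P` and `t`. -/
def Size (P : CuspidalL m → Prop) (r a : ℝ) : Prop :=
  ∀ ε : ℝ, 0 < ε → ∃ B : ℝ, ∀ π : CuspidalL m, P π → ∀ t : ℝ,
    ‖L π (1 / 2 + (r : ℂ) + (t : ℂ) * I)‖ ≤ B * Ct π t ^ (a + ε)

/-- For all positive `δ`, `ε` and `C_π(y)` large: any finitely many zeros `z` of `A_{θ,b}` with
`1/2 + δ ≤ Re z ≤ 1` and `|Im z - y| ≤ 1` have total multiplicity at most `ε log C_π(y)`. -/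
def FewZeros (P : CuspidalL m → Prop) (θ b : ℝ) : Prop :=
  ∀ δ ε : ℝ, 0 < δ → 0 < ε → ∃ C₀ : ℝ, ∀ π : CuspidalL m, P π → ∀ y : ℝ, C₀ ≤ Ct π y → ∀ S : Finset ℂ,
    (∀ z ∈ S, A π θ b z = 0 ∧ 1 / 2 + δ ≤ z.re ∧ z.re ≤ 1 ∧ |z.im - y| ≤ 1) →
    ∑ z ∈ S, (analyticOrderNatAt (A π θ b) z : ℝ) ≤ ε * Real.log (Ct π y)

open Pool.Agent.W169.HF
open Pool.Agent.Hp428.LG

lemma std (π : CuspidalL m) : Std π.N π.μ π.α π.ε π.Λ :=
  ⟨{ one_le := π.one_le
     re_le := π.re_le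
     norm_le := fun j p hp => by
       rw [← Real.sqrt_eq_rpow]
       exact π.norm_le j p hp
     norm_eq := π.norm_eq
     entire := π.entire
     euler := fun s hs => π.euler s (by linarith)
     fe := π.fe
     bdd := π.bdd }, π.ne_zero⟩

/-- the class of tuples -/
def cls (P : CuspidalL m → Prop) : Cls m := fun N μ α e Λ =>
  ∃ π : CuspidalL m, P π ∧ π.N = N ∧ π.μ = μ ∧ π.α = α ∧ π.ε = e ∧ π.Λ = Λ

lemma rpow_exp {x : ℝ} (hx : 1 ≤ x) (a : ℝ) : x ^ a = Real.exp (a * Real.log x) := by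
  rw [Real.rpow_def_of_pos (by linarith), mul_comm]

lemma C_one (π : CuspidalL m) (t : ℝ) : 1 ≤ (1 + |t|) * C π := by
  have h1 : 1 ≤ ∏ j, (1 + ‖π.μ j‖) := by
    refine Finset.prod_induction _ (fun x => (1 : ℝ) ≤ x) (fun a b ha hb => ?_) le_rfl fun j _ => ?_
    · nlinarith
    · linarith [norm_nonneg (π.μ j)]
  have h2 : 1 ≤ C π := by
    unfold C
    have := π.one_le
    nlinarith
  have := abs_nonneg t
  nlinarith

lemma size_iff (P : CuspidalL m → Prop) (r a : ℝ) : Size P r a ↔ SEr (cls P) r a := by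
  constructor
  · intro h ε hε
    obtain ⟨B, HB⟩ := h ε hε
    refine ⟨Real.log (max B 1), ?_⟩
    rintro N μ α e Λ ⟨π, hP, rfl, rfl, rfl, rfl, rfl⟩ _ y
    have hB : 0 < max B 1 := lt_max_of_lt_right one_pos
    refine (HB π hP y).trans ?_
    have h1 : 1 ≤ cnd π.N π.μ y := cnd_pos π.one_le π.μ y
    change B * cnd π.N π.μ y ^ (a + ε) ≤ _
    rw [rpow_exp h1, Real.exp_add, Real.exp_log hB]
    exact mul_le_mul_of_nonneg_right (le_max_left _ _) (Real.exp_pos _).le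
  · intro h ε hε
    obtain ⟨B, HB⟩ := h ε hε
    refine ⟨Real.exp B, fun π hP t => ?_⟩
    have h2 := HB π.N π.μ π.α π.ε π.Λ ⟨π, hP, rfl, rfl, rfl, rfl, rfl⟩ (std π) t
    have h1 : 1 ≤ cnd π.N π.μ t := cnd_pos π.one_le π.μ t
    change _ ≤ Real.exp B * cnd π.N π.μ t ^ (a + ε)
    rw [rpow_exp h1, ← Real.exp_add]
    exact h2

lemma few_iff (P : CuspidalL m → Prop) (θ b : ℝ) : FewZeros P θ b ↔ FS (cls P) θ b := by
  constructor
  · intro h δ ε hδ hε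
    obtain ⟨C0, H⟩ := h δ ε hδ hε
    refine ⟨C0, ?_⟩
    rintro N μ α e Λ ⟨π, hP, rfl, rfl, rfl, rfl, rfl⟩ _ y hC S hS
    exact H π hP y hC S hS
  · intro h δ ε hδ hε
    obtain ⟨C0, H⟩ := h δ ε hδ hε
    refine ⟨C0, fun π hP y hC S hS => ?_⟩
    exact H π.N π.μ π.α π.ε π.Λ ⟨π, hP, rfl, rfl, rfl, rfl, rfl⟩ (std π) y hC S hS

lemma glh_to (hm : 1 ≤ m) (P : CuspidalL m → Prop) : GLH P ↔ SE (cls P) 0 := by
  have hm' : (1 : ℝ) ≤ m := by exact_mod_cast hm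
  constructor
  · intro h ε hε
    obtain ⟨B, HB⟩ := h (ε / (m + 2)) (by positivity)
    refine ⟨Real.log (max B 1), ?_⟩
    rintro N μ α e Λ ⟨π, hP, rfl, rfl, rfl, rfl, rfl⟩ _ y
    have hB : 0 < max B 1 := lt_max_of_lt_right one_pos
    refine (HB π hP y).trans ?_
    rw [rpow_exp (C_one π y), Real.exp_add, Real.exp_log hB]
    refine mul_le_mul (le_max_left _ _) (Real.exp_le_exp.2 ?_) (Real.exp_pos _).le hB.le
    have h1 := (cnd_norm π.one_le π.μ hm π.normalised y).1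
    change Real.log ((1 + |y|) * C π) ≤ _ at h1
    rw [div_mul_eq_mul_div, div_le_iff₀ (by positivity), zero_add]
    have h2 := mul_le_mul_of_nonneg_left h1 hε.le
    linarith
  · intro h ε hε
    obtain ⟨B, HB⟩ := h (ε / m) (by positivity)
    refine ⟨Real.exp B, fun π hP t => ?_⟩
    have h2 := HB π.N π.μ π.α π.ε π.Λ ⟨π, hP, rfl, rfl, rfl, rfl, rfl⟩ (std π) t
    refine h2.trans ?_
    rw [rpow_exp (C_one π t), ← Real.exp_add]
    apply Real.exp_le_exp.2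
    have h1 := (cnd_norm π.one_le π.μ hm π.normalised t).2
    change _ ≤ (m : ℝ) * Real.log ((1 + |t|) * C π) at h1
    have h3 : (0 + ε / m) * Real.log (cnd π.N π.μ t) ≤ ε * Real.log ((1 + |t|) * C π) := by
      rw [zero_add, div_mul_eq_mul_div, div_le_iff₀ (by positivity)]
      have h4 := mul_le_mul_of_nonneg_left h1 hε.le
      linarith
    linarith

lemma size_zero (P : CuspidalL m → Prop) (a : ℝ) : Size P 0 a ↔ SE (cls P) a := by
  rw [size_iff, ser0]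

/-- **Main theorem.** Let `m ≥ 1` and let `P` be a set of `π`.  (1) If `cos θ ≠ 0`: GLH for `P` is equivalent
to `FewZeros P θ b` for all `b > 0`.  (2) If `0 < b < 1/2` and `sin (θ₁ - θ₂) ≠ 0`:
`L(1/2 + b + i t, π) ≪ C_π(t)^ε` for all `ε > 0` is equivalent to `FewZeros P θ₁ b` and `FewZeros P θ₂ b`.
(3) If `cos θ ≠ 0`, `b₁, b₂ > 0`, `b₁ + b₂ < 1/2`: `FewZeros P θ` for `b₁`, `b₂`, `b₁ + b₂` implies this bound
for `b = b₁ + b₂`.  (4) If `cos θ ≠ 0` and `0 < b ≤ 1/2`: `FewZeros P θ (b/2)` and `FewZeros P θ b` imply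
`L(1/2 + i t, π) ≪ C_π(t)^(b/2 + ε)`.  (5) `FewZeros P θ b` holds for `b ≥ 1/2`. -/
theorem result (hm : 1 ≤ m) (P : CuspidalL m → Prop) :
    (∀ θ : ℝ, Real.cos θ ≠ 0 → (GLH P ↔ ∀ b : ℝ, 0 < b → FewZeros P θ b)) ∧
    (∀ θ₁ θ₂ b : ℝ, Real.sin (θ₁ - θ₂) ≠ 0 → 0 < b → b < 1 / 2 →
      (Size P b 0 ↔ FewZeros P θ₁ b ∧ FewZeros P θ₂ b)) ∧
    (∀ θ b₁ b₂ : ℝ, Real.cos θ ≠ 0 → 0 < b₁ → 0 < b₂ → b₁ + b₂ < 1 / 2 → FewZeros P θ b₁ →
      FewZeros P θ b₂ → FewZeros P θ (b₁ + b₂) → Size P (b₁ + b₂) 0) ∧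
    (∀ θ b : ℝ, Real.cos θ ≠ 0 → 0 < b → b ≤ 1 / 2 → FewZeros P θ (b / 2) → FewZeros P θ b →
      Size P 0 (b / 2)) ∧
    ∀ θ b : ℝ, 1 / 2 ≤ b → FewZeros P θ b := by
  simp only [few_iff, glh_to hm, size_zero]
  refine ⟨fun θ hc => glh_shift hm hc, fun θ1 θ2 b hs hb hb1 => ?_,
    fun θ b1 b2 hc h1 h2 h3 k1 k2 k3 => ?_, fun θ b hc hb hb1 k1 k2 => subc hm hc hb hb1 k1 k2,
    fun θ b hb => few_of hm (by linarith) (fun h => absurd hb (not_le.2 h)) θ⟩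
  · rw [size_iff]
    exact two_iff hm hs hb hb1
  · rw [size_iff]
    exact ser_three hm hc h1 h2 h3 k1 k2 k3

end Pool.Agent.Results.MP_52e316_nt.ShiftSumsGLm
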