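import Pool.Agent.H875.TG.Step

/-!
# The Grand Lindelöf Hypothesis for `GL(m)` from the first Taylor coefficients at any abscissa to the right

`π` runs through the L-functions of cuspidal automorphic representations of `GL_m(𝔸_ℚ)` (`CuspidalL m`);
`C_π = N ∏ (1 + |μ_j|)` is the analytic conductor, `C_π(t) = N ∏ (1 + |i t - μ_j|)` the analytic conductor
at the height `t`.  Let `P` be any set of `π` (for example all of them), `0 ≤ r < 1/2`, `r < r₀` and `a ≥ 0`.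

Theorem.  (1) The bound `L(1/2 + r + i t, π) ≪ C_π(t)^(a + ε)` (all `ε > 0`, uniform in `π ∈ P` and `t`)
holds if and only if

`|L^(n)(1/2 + r₀ + i t, π)| ≤ B_ε n! (r₀ - r)^(-n) C_π(t)^(a + ε)` for all `n ≤ (r₀ - r) / 2 * log C_π(t)`

(again uniformly in `π ∈ P` and `t`).  (2) In particular, for each `r₀ > 0`, the Grand Lindelöf Hypothesis
holds for `P` if and only if `|L^(n)(1/2 + r₀ + i t, π)| ≤ B_ε n! r₀^(-n) C_π(t)^ε` for all
`n ≤ r₀ / 2 * log C_π(t)`: the line `1/2 + r₀` may lie in the half-plane of absolute convergence.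
(3) The same equivalence for bounded heights `|t| ≤ T` (each `T`, constants depending on `T`), i.e. in the
level and spectral aspects.

Proof: Cauchy's estimate gives the bounds for all `n`.  Conversely let `e` be the best exponent on the line
`1/2 + r`, `e > a`.  In the Taylor expansion at `1/2 + r₀ + i t`, the terms with `n ≤ (r₀ - r) / 2 * log C`
are small by hypothesis, the others by Cauchy's estimate with the exponent `e`; this gives a gain on the line
`1/2 + r + h` which is larger than the loss `h / 2` in the exponent caused by the return to the line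
`1/2 + r` by convexity and the functional equation.  Modules `Pool.Agent.H875.TG`, on top of the modules
`Pool.Agent.Hp428.LG` and `Pool.Agent.W169.HF`.
-/

set_option autoImplicit false

open Complex
open scoped ComplexConjugate

namespace Pool.Agent.Results.MP_52e316_nt.TaylorCoefficientsGLm

/-- Analytic data of a cuspidal automorphic representation of `GL_m(𝔸_ℚ)` (not the trivial one for
`m = 1`), normalised as in the problem: conductor `N`, archimedean parameters `μ_j` with `Re μ_j ≤ 1/2` and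
`∑ Im μ_j = 0` (the central character is trivial on the positive reals), Satake parameters
`|α_j(p)| ≤ √p`, root number `ε`, and the entire completed L-function `Λ` (gamma factors times Euler product
for `Re s > 3/2`) with the functional equation, finite order in vertical strips and no zeros in
`Re s > 1` (all known: Godement-Jacquet, Jacquet-Shalika). -/
structure CuspidalL (m : ℕ) where
  /-- the conductor -/
  N : ℝ
  /-- the archimedean parameters -/
  μ : Fin m → ℂ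
  /-- the Satake parameters -/
  α : Fin m → ℕ → ℂ
  /-- the root number -/
  ε : ℂ
  /-- the completed L-function -/
  Λ : ℂ → ℂ
  one_le : 1 ≤ N
  re_le : ∀ j, (μ j).re ≤ 1 / 2
  normalised : ∑ j, (μ j).im = 0
  norm_le : ∀ j, ∀ p : ℕ, p.Prime → ‖α j p‖ ≤ Real.sqrt p
  norm_eq : ‖ε‖ = 1
  entire : Differentiable ℂ Λ
  euler : ∀ s : ℂ, 3 / 2 < s.re → Λ s = (∏ j, Gammaℝ (s - μ j)) *
    ∏' p : Nat.Primes, ∏ j, (1 - α j p * (p : ℂ) ^ (-s))⁻¹
  fe : ∀ s : ℂ, Λ s = ε * (N : ℂ) ^ (1 / 2 - s) * conj (Λ (1 - conj s))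
  bdd : ∀ a b : ℝ, ∃ M, ∀ s : ℂ, a ≤ s.re → s.re ≤ b → ‖Λ s‖ ≤ Real.exp (M * (1 + |s.im|))
  ne_zero : ∀ s : ℂ, 1 < s.re → Λ s ≠ 0

variable {m : ℕ}

/-- The L-function `L(s, π) = Λ(s, π) / ∏ Γ_ℝ(s - μ_j)`. -/
noncomputable def L (π : CuspidalL m) (s : ℂ) : ℂ := π.Λ s * ∏ j, (Gammaℝ (s - π.μ j))⁻¹

/-- The analytic conductor `C_π = N ∏ (1 + |μ_j|)`. -/
noncomputable def C (π : CuspidalL m) : ℝ := π.N * ∏ j, (1 + ‖π.μ j‖)

/-- The analytic conductor at the height `t`: `C_π(t) = N ∏ (1 + |i t - μ_j|)`. -/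
noncomputable def Ct (π : CuspidalL m) (t : ℝ) : ℝ := π.N * ∏ j, (1 + ‖(t : ℂ) * I - π.μ j‖)

/-- The Grand Lindelöf Hypothesis for the `π` in `P`. -/
def GLH (P : CuspidalL m → Prop) : Prop :=
  ∀ ε : ℝ, 0 < ε → ∃ B : ℝ, ∀ π : CuspidalL m, P π → ∀ t : ℝ,
    ‖L π (1 / 2 + (t : ℂ) * I)‖ ≤ B * ((1 + |t|) * C π) ^ ε

/-- `L(1/2 + r + i t, π) ≪ C_π(t)^(a + ε)` for every `ε > 0`, uniformly in `π ∈ P` and `t ∈ Y`. -/
def Size (P : CuspidalL m → Prop) (Y : Set ℝ) (r a : ℝ) : Prop :=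
  ∀ ε : ℝ, 0 < ε → ∃ B : ℝ, ∀ π : CuspidalL m, P π → ∀ t ∈ Y,
    ‖L π (1 / 2 + (r : ℂ) + (t : ℂ) * I)‖ ≤ B * Ct π t ^ (a + ε)

/-- For every `ε > 0`, `|L^(n)(1/2 + r₀ + i t, π)| ≤ B n! (r₀ - r)^(-n) C_π(t)^(a + ε)` for all
`n ≤ (r₀ - r) / 2 * log C_π(t)`, uniformly in `π ∈ P`, `t ∈ Y` and `n`. -/
def Taylor (P : CuspidalL m → Prop) (Y : Set ℝ) (r r₀ a : ℝ) : Prop :=
  ∀ ε : ℝ, 0 < ε → ∃ B : ℝ, ∀ π : CuspidalL m, P π → ∀ t ∈ Y, ∀ n : ℕ,
    (n : ℝ) ≤ (r₀ - r) / 2 * Real.log (Ct π t) →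
      ‖iteratedDeriv n (L π) (1 / 2 + (r₀ : ℂ) + (t : ℂ) * I)‖ ≤
        B * ((n.factorial : ℝ) / (r₀ - r) ^ n) * Ct π t ^ (a + ε)

open Pool.Agent.W169.HF
open Pool.Agent.Hp428.LG
open Pool.Agent.H875.TG

lemma std (π : CuspidalL m) : Std π.N π.μ π.α π.ε π.Λ :=
  ⟨{ one_le := π.one_le
     re_le := π.re_le
     norm_le := fun j p hp => by
       rw [← Real.sqrt_eq_rpow]
       exact π.norm_le j p hp
     norm_eq := π.norm_eq
     entire := π.entire
     euler := fun s hs => π.euler s (by linarith)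
     fe := π.fe
     bdd := π.bdd }, π.ne_zero⟩

/-- the class of tuples -/
def cls (P : CuspidalL m → Prop) : Cls m := fun N μ α e Λ =>
  ∃ π : CuspidalL m, P π ∧ π.N = N ∧ π.μ = μ ∧ π.α = α ∧ π.ε = e ∧ π.Λ = Λ

lemma rpow_exp {x : ℝ} (hx : 1 ≤ x) (a : ℝ) : x ^ a = Real.exp (a * Real.log x) := by
  rw [Real.rpow_def_of_pos (by linarith), mul_comm]

lemma C_one (π : CuspidalL m) (t : ℝ) : 1 ≤ (1 + |t|) * C π := by
  have h1 : 1 ≤ ∏ j, (1 + ‖π.μ j‖) := by
    refine Finset.prod_induction _ (fun x => (1 : ℝ) ≤ x) (fun a b ha hb => ?_) le_rfl fun j _ => ?_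
    · nlinarith
    · linarith [norm_nonneg (π.μ j)]
  have h2 : 1 ≤ C π := by
    unfold C
    have := π.one_le
    nlinarith
  have := abs_nonneg t
  nlinarith

lemma glh_to (hm : 1 ≤ m) (P : CuspidalL m → Prop) : GLH P ↔ SE (cls P) 0 := by
  have hm' : (1 : ℝ) ≤ m := by exact_mod_cast hm
  constructor
  · intro h ε hε
    obtain ⟨B, HB⟩ := h (ε / (m + 2)) (by positivity)
    refine ⟨Real.log (max B 1), ?_⟩
    rintro N μ α e Λ ⟨π, hP, rfl, rfl, rfl, rfl, rfl⟩ _ y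
    have hB : 0 < max B 1 := lt_max_of_lt_right one_pos
    refine (HB π hP y).trans ?_
    rw [rpow_exp (C_one π y), Real.exp_add, Real.exp_log hB]
    refine mul_le_mul (le_max_left _ _) (Real.exp_le_exp.2 ?_) (Real.exp_pos _).le hB.le
    have h1 := (cnd_norm π.one_le π.μ hm π.normalised y).1
    change Real.log ((1 + |y|) * C π) ≤ _ at h1
    rw [div_mul_eq_mul_div, div_le_iff₀ (by positivity), zero_add]
    have h2 := mul_le_mul_of_nonneg_left h1 hε.le
    linarith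
  · intro h ε hε
    obtain ⟨B, HB⟩ := h (ε / m) (by positivity)
    refine ⟨Real.exp B, fun π hP t => ?_⟩
    have h2 := HB π.N π.μ π.α π.ε π.Λ ⟨π, hP, rfl, rfl, rfl, rfl, rfl⟩ (std π) t
    refine h2.trans ?_
    rw [rpow_exp (C_one π t), ← Real.exp_add]
    apply Real.exp_le_exp.2
    have h1 := (cnd_norm π.one_le π.μ hm π.normalised t).2
    change _ ≤ (m : ℝ) * Real.log ((1 + |t|) * C π) at h1
    have h3 : (0 + ε / m) * Real.log (cnd π.N π.μ t) ≤ ε * Real.log ((1 + |t|) * C π) := by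
      rw [zero_add, div_mul_eq_mul_div, div_le_iff₀ (by positivity)]
      have h4 := mul_le_mul_of_nonneg_left h1 hε.le
      linarith
    linarith

lemma size_iff (P : CuspidalL m → Prop) (Y : Set ℝ) (r a : ℝ) : Size P Y r a ↔ SY (cls P) Y r a := by
  constructor
  · intro h ε hε
    obtain ⟨B, HB⟩ := h ε hε
    refine ⟨Real.log (max B 1), ?_⟩
    rintro N μ α e Λ ⟨π, hP, rfl, rfl, rfl, rfl, rfl⟩ _ y hy
    have hB : 0 < max B 1 := lt_max_of_lt_right one_pos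
    refine (HB π hP y hy).trans ?_
    have h1 : 1 ≤ cnd π.N π.μ y := cnd_pos π.one_le π.μ y
    change B * cnd π.N π.μ y ^ (a + ε) ≤ _
    rw [rpow_exp h1, Real.exp_add, Real.exp_log hB]
    exact mul_le_mul_of_nonneg_right (le_max_left _ _) (Real.exp_pos _).le
  · intro h ε hε
    obtain ⟨B, HB⟩ := h ε hε
    refine ⟨Real.exp B, fun π hP t ht => ?_⟩
    have h2 := HB π.N π.μ π.α π.ε π.Λ ⟨π, hP, rfl, rfl, rfl, rfl, rfl⟩ (std π) t ht
    have h1 : 1 ≤ cnd π.N π.μ t := cnd_pos π.one_le π.μ t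
    change _ ≤ Real.exp B * cnd π.N π.μ t ^ (a + ε)
    rw [rpow_exp h1, ← Real.exp_add]
    exact h2

lemma taylor_iff (P : CuspidalL m → Prop) (Y : Set ℝ) (r r₀ a : ℝ) (hr : r < r₀) :
    Taylor P Y r r₀ a ↔ DY (cls P) Y r r₀ a := by
  have hD : 0 < r₀ - r := by linarith
  constructor
  · intro h ε hε
    obtain ⟨B, HB⟩ := h ε hε
    refine ⟨Real.log (max B 1), ?_⟩
    rintro N μ α e Λ ⟨π, hP, rfl, rfl, rfl, rfl, rfl⟩ _ y hy n hn
    have hB : 0 < max B 1 := lt_max_of_lt_right one_pos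
    refine (HB π hP y hy n hn).trans ?_
    have h1 : 1 ≤ cnd π.N π.μ y := cnd_pos π.one_le π.μ y
    change B * ((n.factorial : ℝ) / (r₀ - r) ^ n) * cnd π.N π.μ y ^ (a + ε) ≤ _
    rw [rpow_exp h1, Real.exp_add, Real.exp_log hB, ← mul_assoc, mul_comm B]
    apply mul_le_mul_of_nonneg_right _ (Real.exp_pos _).le
    exact mul_le_mul_of_nonneg_left (le_max_left _ _) (by positivity)
  · intro h ε hε
    obtain ⟨B, HB⟩ := h ε hε
    refine ⟨Real.exp B, fun π hP t ht n hn => ?_⟩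
    have h2 := HB π.N π.μ π.α π.ε π.Λ ⟨π, hP, rfl, rfl, rfl, rfl, rfl⟩ (std π) t ht n hn
    have h1 : 1 ≤ cnd π.N π.μ t := cnd_pos π.one_le π.μ t
    change _ ≤ Real.exp B * ((n.factorial : ℝ) / (r₀ - r) ^ n) * cnd π.N π.μ t ^ (a + ε)
    rw [Real.exp_add] at h2
    rw [rpow_exp h1]
    refine h2.trans (le_of_eq ?_)
    ring

lemma glh_size (hm : 1 ≤ m) (P : CuspidalL m → Prop) : GLH P ↔ Size P Set.univ 0 0 := by
  rw [glh_to hm, size_iff, ← ser0]
  constructor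
  · intro h ε hε
    obtain ⟨B, HB⟩ := h ε hε
    exact ⟨B, fun N μ α e Λ hP hS y _ => HB N μ α e Λ hP hS y⟩
  · intro h ε hε
    obtain ⟨B, HB⟩ := h ε hε
    exact ⟨B, fun N μ α e Λ hP hS y => HB N μ α e Λ hP hS y (Set.mem_univ y)⟩

/-- **Main theorem.** Let `m ≥ 1` and let `P` be a set of `π`.  (1) For every `r₀ > 0`, GLH for `P` is
equivalent to the bounds `n! r₀^(-n) C_π(t)^ε` for `L^(n)(1/2 + r₀ + i t, π)`, `n ≤ r₀ / 2 * log C_π(t)`.
(2) The same for the bound `C_π(t)^(a + ε)` on the line `1/2 + r`.  (3) The same for bounded heights. -/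
theorem result (hm : 1 ≤ m) (P : CuspidalL m → Prop) :
    (∀ r₀ : ℝ, 0 < r₀ → (GLH P ↔ Taylor P Set.univ 0 r₀ 0)) ∧
    (∀ r r₀ a : ℝ, 0 ≤ r → r < 1 / 2 → r < r₀ → 0 ≤ a →
      (Size P Set.univ r a ↔ Taylor P Set.univ r r₀ a)) ∧
    (∀ r r₀ a : ℝ, 0 ≤ r → r < 1 / 2 → r < r₀ → 0 ≤ a →
      ((∀ T : ℝ, Size P (Set.Icc (-T) T) r a) ↔ ∀ T : ℝ, Taylor P (Set.Icc (-T) T) r r₀ a)) := by
  have main : ∀ r r₀ a : ℝ, 0 ≤ r → r < 1 / 2 → r < r₀ → 0 ≤ a →
      (Size P Set.univ r a ↔ Taylor P Set.univ r r₀ a) := by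
    intro r r₀ a hr hr1 hr0 ha
    have h := sy_iff_dy (P := cls P) (Y := fun _ => Set.univ) hm (fun _ _ _ _ _ _ _ => Set.mem_univ _)
      hr hr1 hr0 ha
    rw [size_iff, taylor_iff P _ r r₀ a hr0]
    exact ⟨fun k => h.1 (fun _ => k) 0, fun k => h.2 (fun _ => k) 0⟩
  refine ⟨fun r₀ hr0 => ?_, main, fun r r₀ a hr hr1 hr0 ha => ?_⟩
  · rw [glh_size hm]
    exact main 0 r₀ 0 le_rfl (by norm_num) hr0 le_rfl
  · have h := sy_iff_dy (P := cls P) (Y := fun T => Set.Icc (-T) T) hm (fun T R y y' hR hy hyy => by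
      have h1 := abs_le.1 hyy
      exact ⟨by linarith [hy.1], by linarith [hy.2]⟩) hr hr1 hr0 ha
    constructor
    · intro k T
      rw [taylor_iff P _ r r₀ a hr0]
      exact h.1 (fun T => (size_iff P _ r a).1 (k T)) T
    · intro k T
      rw [size_iff]
      exact h.2 (fun T => (taylor_iff P _ r r₀ a hr0).1 (k T)) T

end Pool.Agent.Results.MP_52e316_nt.TaylorCoefficientsGLm
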