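import Pool.Agent.A856.HW.Tau

/-!
# Weyl-strength bounds for Hecke L-functions over number fields, powerful conductor

For every number field `K`: the mean square on the critical line of the L-functions of the
primitive ray class characters of conductor `𝔣` in one coset of the characters modulo `𝔡`, where
`𝔡 ∣ 𝔣 ∣ 𝔡³`, is at most `N𝔡 (N𝔣)^ε`, polynomially in `t`.  For one character whose conductor is a
cube this is the bound with exponent `1/6 + ε`.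
-/

set_option autoImplicit false
set_option maxHeartbeats 4000000

open NumberField

namespace Pool.Agent.Results.MP_52e316_nt.WeylHeckeCosets

open Pool.Agent.Y773 (TPos LI)
open Pool.Agent.Y773.G (IsPrimChar)
open Pool.Agent.A856.HW

/-- **Mean squares over cosets of ray class characters, and Weyl-strength bounds.** -/
theorem result (K : Type) [Field K] [NumberField K] (ε : ℝ) (hε : 0 < ε) :
    ∃ C : ℝ, 0 < C ∧ ∀ (𝔣 𝔡 : Ideal (𝓞 K)), 𝔣 ≠ ⊤ → 𝔡 ∣ 𝔣 → 𝔣 ∣ 𝔡 ^ 3 →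
      ∀ (I : Type) [Fintype I] (ψ : I → Ideal (𝓞 K) →*₀ ℂ), (∀ i, IsPrimChar K 𝔣 (ψ i)) →
      Function.Injective ψ →
      (∀ i j, ∀ a : 𝓞 K, a ≠ 0 → a - 1 ∈ 𝔡 → TPos K a →
        ψ i (Ideal.span {a}) = ψ j (Ideal.span {a})) →
      ∃ L : I → ℂ → ℂ, (∀ i, Differentiable ℂ (L i)) ∧
        (∀ i, ∀ s : ℂ, 1 < s.re → L i s = LI (ψ i) s) ∧
        ∀ t : ℝ, ∑ i, ‖L i (1 / 2 + t * Complex.I)‖ ^ 2 ≤
          C * (1 + |t|) ^ (6 * Module.finrank ℚ K) *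
            ((Ideal.absNorm 𝔡 : ℝ) * (Ideal.absNorm 𝔣 : ℝ) ^ ε) := by
  obtain ⟨C₁, hC₁, h1⟩ := coset_mean K
  obtain ⟨C₂, hC₂, h2⟩ := tau_bound K (ε := ε / 4) (by positivity)
  -- the logarithm
  obtain ⟨C₃, hC₃, h3⟩ : ∃ C₃ : ℝ, 0 < C₃ ∧ ∀ x : ℝ, 1 ≤ x →
      Real.log (2 * x) ^ 2 ≤ C₃ * x ^ (ε / 2) := by
    refine ⟨((ε / 4)⁻¹ * (2 : ℝ) ^ (ε / 4)) ^ 2, by positivity, fun x hx => ?_⟩
    have h4 : Real.log (2 * x) ≤ (2 * x) ^ (ε / 4) / (ε / 4) :=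
      Real.log_le_rpow_div (by linarith) (by positivity)
    have h5 : 0 ≤ Real.log (2 * x) := Real.log_nonneg (by linarith)
    have h6 : (x ^ (ε / 4)) ^ 2 = x ^ (ε / 2) := by
      rw [← Real.rpow_natCast, ← Real.rpow_mul (by linarith)]
      congr 1
      push_cast
      ring
    calc Real.log (2 * x) ^ 2 ≤ ((2 * x) ^ (ε / 4) / (ε / 4)) ^ 2 := pow_le_pow_left₀ h5 h4 2
      _ = ((ε / 4)⁻¹ * (2 : ℝ) ^ (ε / 4)) ^ 2 * (x ^ (ε / 4)) ^ 2 := by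
          rw [Real.mul_rpow (by norm_num) (by linarith)]
          ring
      _ = _ := by rw [h6]
  refine ⟨C₁ * C₂ ^ 2 * C₃, by positivity, ?_⟩
  intro 𝔣 𝔡 htop hd1 hd3 I hI ψ hp hinj hcong
  obtain ⟨L, hL1, hL2, hL3⟩ := h1 𝔣 𝔡 htop hd1 hd3 I ψ hp hinj hcong
  refine ⟨L, hL1, hL2, fun t => ?_⟩
  rcases isEmpty_or_nonempty I with hemp | ⟨⟨i₀⟩⟩
  · rw [Finset.univ_eq_empty, Finset.sum_empty]
    positivity
  have hf0 := (hp i₀).ne_bot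
  have hN : (1 : ℝ) ≤ Ideal.absNorm 𝔣 := by
    have : Ideal.absNorm 𝔣 ≠ 0 := fun h => hf0 (Ideal.absNorm_eq_zero_iff.mp h)
    exact_mod_cast Nat.one_le_iff_ne_zero.mpr this
  refine (hL3 t).trans ?_
  have h4 : (tau 𝔣 : ℝ) ^ 2 ≤ (C₂ * (Ideal.absNorm 𝔣 : ℝ) ^ (ε / 4)) ^ 2 :=
    pow_le_pow_left₀ (Nat.cast_nonneg _) (h2 𝔣 hf0) 2
  have h5 := h3 _ hN
  have h6 : ((Ideal.absNorm 𝔣 : ℝ) ^ (ε / 4)) ^ 2 * (Ideal.absNorm 𝔣 : ℝ) ^ (ε / 2) =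
      (Ideal.absNorm 𝔣 : ℝ) ^ ε := by
    rw [← Real.rpow_natCast, ← Real.rpow_mul (by linarith), ← Real.rpow_add (by linarith)]
    congr 1
    push_cast
    ring
  calc C₁ * (1 + |t|) ^ (6 * Module.finrank ℚ K) * (tau 𝔣 : ℝ) ^ 2 *
          (Ideal.absNorm 𝔡 : ℝ) * Real.log (2 * (Ideal.absNorm 𝔣 : ℝ)) ^ 2
      ≤ C₁ * (1 + |t|) ^ (6 * Module.finrank ℚ K) * (C₂ * (Ideal.absNorm 𝔣 : ℝ) ^ (ε / 4)) ^ 2 *
          (Ideal.absNorm 𝔡 : ℝ) * (C₃ * (Ideal.absNorm 𝔣 : ℝ) ^ (ε / 2)) := by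
        gcongr
    _ = C₁ * C₂ ^ 2 * C₃ * (1 + |t|) ^ (6 * Module.finrank ℚ K) *
          ((Ideal.absNorm 𝔡 : ℝ) * (((Ideal.absNorm 𝔣 : ℝ) ^ (ε / 4)) ^ 2 *
            (Ideal.absNorm 𝔣 : ℝ) ^ (ε / 2))) := by ring
    _ = _ := by rw [h6]

end Pool.Agent.Results.MP_52e316_nt.WeylHeckeCosets
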